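import Pool.Agent.Q92.Ent.Main

/-!
# Algebraic entropy does not decrease when one restricts to a subgroup (MP_df8e9b_al, Q1)

The proof uses the infimum rule `H_alg(α, X) = inf_F log |T_F(α, X)| / |F|`, the infimum being
taken over all the finite nonempty subsets `F` of `G`. It follows from Shearer's inequality for the
sizes of sumsets applied to the cover of `F_i` by the sets `s F ∩ F_i`, `s ∈ F_i F⁻¹`, since
`|T_{sF}(α, X)| = |T_F(α, X)|`. For a subgroup `H` the infimum is taken over fewer sets.
-/

set_option autoImplicit false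

namespace Pool.Agent.Results.MP_df8e9b_al.EntropyOfSubgroups

open Pool.Agent.Q92.Ent

universe u v

/-- Let `G` be an amenable group acting on the abelian group `A` and let `H` be a subgroup of `G`.
Then `H` is amenable, the limits defining both entropies exist for `G` and `H`, and
`h_alg(α) ≤ h_alg(α|H)`, `ent(α) ≤ ent(α|H)`. -/
theorem result {G : Type u} [Group G] (hG : IsAmenable G) {A : Type v} [AddCommGroup A]
    [DistribMulAction G A] (H : Subgroup G) :
    (IsAmenable H ∧ ∀ X : Finset A, X.Nonempty → (∃ r, IsHalg G X r) ∧ ∃ r, IsHalg H X r) ∧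
      halg G A ≤ halg H A ∧ ent G A ≤ ent H A :=
  ⟨⟨hG.subgroup H, fun _ hX => ⟨⟨_, isHalg_infH hX⟩, ⟨_, isHalg_infH hX⟩⟩⟩,
    halg_le hG H, ent_le hG H⟩

end Pool.Agent.Results.MP_df8e9b_al.EntropyOfSubgroups
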